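import Mathlib
import Pool.Agent.H9.Tang

set_option autoImplicit false

namespace Pool.Agent.Results.MP_1a6bb7_co.Superlinear

/-- The graphs of `f` and `g` share exactly one point and do not cross there. -/
def Tangent (f g : ℝ → ℝ) : Prop :=
  (∃! x, f x = g x) ∧ ((∀ x, f x ≤ g x) ∨ (∀ x, g x ≤ f x))

/-- Number of unordered tangent pairs. -/
noncomputable def tangencies {n : ℕ} (f : Fin n → ℝ → ℝ) : ℕ :=
  {p : Sym2 (Fin n) | ∃ i j, p = s(i, j) ∧ i ≠ j ∧ Tangent (f i) (f j)}.ncard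

theorem result (m : ℕ) : ∃ f : Fin (3 * m ^ 3) → ℝ → ℝ, (∀ i, Continuous (f i)) ∧
    (∀ i j, i ≠ j → {x | f i x = f j x}.Nonempty ∧ {x | f i x = f j x}.encard ≤ 8) ∧
    (∀ i j l, i ≠ j → i ≠ l → j ≠ l → ∀ x, ¬ (f i x = f j x ∧ f i x = f l x)) ∧
    m ^ 4 ≤ tangencies f :=
  Pool.Agent.H9.Tang.main m

end Pool.Agent.Results.MP_1a6bb7_co.Superlinear
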